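import Pool.Agent.H525.EX.Stm

/-!
# EXI: existence of the canonical solution
-/

namespace Pool.Agent.H181.EX

open Pool.Agent.H525.EX
open Finset

/-- recursive construction of rows -/
theorem rows {X : Type} (d : X) (F : ℕ → (ℤ → X) → X) : ∃ f : ℤ → X, (∀ n : ℤ, n < 0 → f n = d) ∧
    ∀ n : ℕ, f n = F n (fun m => if m < n then f m else d) := by
  let st : ℕ → ℤ → X := fun N =>
    Nat.rec (fun _ => d) (fun N g => Function.update g (N : ℤ) (F N g)) N
  have hs : ∀ N : ℕ, st (N + 1) = Function.update (st N) (N : ℤ) (F N (st N)) := fun N => rfl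
  let f : ℤ → X := fun m => st (m.toNat + 1) m
  have hneg : ∀ n : ℤ, n < 0 → f n = d := by
    intro n hn
    have e1 : n.toNat = 0 := Int.toNat_of_nonpos hn.le
    change st (n.toNat + 1) n = d
    rw [e1, hs, Function.update_of_ne (by simp; omega)]
    rfl
  have key : ∀ (N : ℕ) (m : ℤ), st N m = if m < N then f m else d := by
    intro N
    induction N with
    | zero =>
      intro m
      split_ifs with h
      · rw [hneg m (by simpa using h)]
        rfl
      · rfl
    | succ N ih =>
      intro m
      by_cases hm : m = N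
      · subst hm
        rw [if_pos (by push_cast; omega)]
        rfl
      · rw [hs, Function.update_of_ne hm, ih m]
        push_cast
        split_ifs with h1 h2 h2
        · rfl
        · omega
        · omega
        · rfl
  refine ⟨f, hneg, fun n => ?_⟩
  have e1 : f n = F n (st n) := by
    change st ((n : ℤ).toNat + 1) n = _
    rw [Int.toNat_natCast, hs, Function.update_self]
  rw [e1]
  congr 1
  funext m
  exact key n m

/-- existence -/
theorem t_exi : S_exi := by
  intro s ε P hε
  have hsq : ∀ n : ℤ, ε ^ n * ε ^ n = 1 := by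
    intro n
    rw [← mul_zpow]
    rcases hε with rfl | rfl <;> simp
  have hpm : ∀ n : ℤ, ε ^ n = 1 ∨ (ε ^ n = -1 ∧ n ≠ 0) := by
    intro n
    have h1 : (ε ^ n - 1) * (ε ^ n + 1) = 0 := by
      have := hsq n
      linear_combination this
    rcases mul_eq_zero.1 h1 with h | h
    · exact Or.inl (by linarith)
    · refine Or.inr ⟨by linarith, ?_⟩
      rintro rfl
      rw [zpow_zero] at h
      norm_num at h
  -- the new rows
  let lu : (ℤ → (ℤ → ℝ) × (ℤ → ℝ)) → ℤ → ℤ → ℝ := fun g n e =>
    (g e).1 n - ε ^ s * P * (g (e - (2 * s + 1))).2 (n - (2 * s - 1)) +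
      ε ^ s * P * (g (n - (2 * s + 1))).2 (e - (2 * s - 1))
  let nu : (ℤ → (ℤ → ℝ) × (ℤ → ℝ)) → ℤ → ℤ → ℝ := fun g n e =>
    if e < n then lu g n e else if n < e then ε ^ n * lu g n (2 * n - e) else
      (if n = 0 then 1 else 0) - ∑ e' ∈ (Icc (-n) (3 * n + 1)).erase n,
        (if e' < n then lu g n e' else ε ^ n * lu g n (2 * n - e'))
  let lv : (ℤ → (ℤ → ℝ) × (ℤ → ℝ)) → ℤ → ℤ → ℝ := fun g n e =>
    nu g n e - ((g (e - 1)).1 (n + 1) - (g (e - 1)).2 (n + 1))
  let nv : (ℤ → (ℤ → ℝ) × (ℤ → ℝ)) → ℤ → ℤ → ℝ := fun g n e =>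
    if e ≤ n then lv g n e else -(ε ^ n * lv g n (2 * n + 1 - e))
  obtain ⟨f, hf0, hf⟩ := rows ((fun _ => 0, fun _ => 0) : (ℤ → ℝ) × (ℤ → ℝ))
    (fun n g => (nu g n, nv g n))
  set u : Arr := fun n e => (f n).1 e with hu
  set v : Arr := fun n e => (f n).2 e with hv
  have un : ∀ n e : ℤ, n < 0 → u n e = 0 := by
    intro n e hn
    simp only [hu, hf0 n hn]
  have vn : ∀ n e : ℤ, n < 0 → v n e = 0 := by
    intro n e hn
    simp only [hv, hf0 n hn]
  -- the defining equations
  have hlu : ∀ (n : ℕ) (e : ℤ), e < n →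
      lu (fun m => if m < (n : ℤ) then f m else (fun _ => 0, fun _ => 0)) n e =
      u e n - ε ^ s * P * v (e - (2 * s + 1)) (n - (2 * s - 1)) +
        ε ^ s * P * v (n - (2 * s + 1)) (e - (2 * s - 1)) := by
    intro n e he
    simp only [lu, hu, hv]
    rw [if_pos he, if_pos (show e - (2 * (s : ℤ) + 1) < n by omega),
      if_pos (show (n : ℤ) - (2 * (s : ℤ) + 1) < n by omega)]
  have E1 : ∀ n e : ℤ, e < n → u n e = u e n - ε ^ s * P * v (e - (2 * s + 1)) (n - (2 * s - 1)) +
      ε ^ s * P * v (n - (2 * s + 1)) (e - (2 * s - 1)) := by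
    intro n e he
    rcases lt_or_ge n 0 with hn | hn
    · rw [un n e hn, un e n (by omega), vn _ _ (by omega), vn _ _ (by omega)]
      ring
    · obtain ⟨n, rfl⟩ := Int.eq_ofNat_of_zero_le hn
      rw [← hlu n e he]
      simp only [hu, hf n, nu]
      rw [if_pos he]
  have E2' : ∀ n e : ℤ, n < e → u n e = ε ^ n * u n (2 * n - e) := by
    intro n e he
    rcases lt_or_ge n 0 with hn | hn
    · rw [un n e hn, un n _ hn]
      ring
    · obtain ⟨n, rfl⟩ := Int.eq_ofNat_of_zero_le hn
      rw [E1 n (2 * n - e) (by omega), ← hlu n (2 * n - e) (by omega)]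
      simp only [hu, hf n, nu]
      rw [if_neg (by omega), if_pos he]
  have E3 : ∀ n : ℤ, u n n = (if n = 0 then 1 else 0) -
      ∑ e' ∈ (Icc (-n) (3 * n + 1)).erase n, u n e' := by
    intro n
    rcases lt_or_ge n 0 with hn | hn
    · rw [un n n hn, if_neg (by omega), Finset.sum_eq_zero fun e _ => un n e hn]
      ring
    · obtain ⟨n, rfl⟩ := Int.eq_ofNat_of_zero_le hn
      have e1 : u n n = (if (n : ℤ) = 0 then 1 else 0) -
          ∑ e' ∈ (Icc (-(n : ℤ)) (3 * n + 1)).erase (n : ℤ),
          (if e' < (n : ℤ) then lu (fun m => if m < (n : ℤ) then f m else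
            (fun _ => 0, fun _ => 0)) n e' else ε ^ (n : ℤ) * lu (fun m => if m < (n : ℤ) then f m
            else (fun _ => 0, fun _ => 0)) n (2 * n - e')) := by
        simp only [hu, hf n, nu]
        rw [if_neg (lt_irrefl _), if_neg (lt_irrefl _)]
      rw [e1]
      congr 1
      refine Finset.sum_congr rfl fun e he => ?_
      have hne : e ≠ n := Finset.ne_of_mem_erase he
      by_cases h : e < n
      · rw [if_pos h, hlu n e h, ← E1 n e h]
      · rw [if_neg h, hlu n (2 * n - e) (by omega), ← E1 n (2 * n - e) (by omega),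
          ← E2' n e (by omega)]
  have hlv : ∀ (n : ℕ) (e : ℤ), e ≤ n →
      lv (fun m => if m < (n : ℤ) then f m else (fun _ => 0, fun _ => 0)) n e =
      u n e - (u (e - 1) (n + 1) - v (e - 1) (n + 1)) := by
    intro n e he
    simp only [lv, hu, hv]
    rw [if_pos (show e - 1 < (n : ℤ) by omega), hf n]
  have E4 : ∀ n e : ℤ, e ≤ n → v n e = u n e - (u (e - 1) (n + 1) - v (e - 1) (n + 1)) := by
    intro n e he
    rcases lt_or_ge n 0 with hn | hn
    · rw [un n e hn, vn n e hn, un _ _ (show e - 1 < 0 by omega), vn _ _ (show e - 1 < 0 by omega)]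
      ring
    · obtain ⟨n, rfl⟩ := Int.eq_ofNat_of_zero_le hn
      rw [← hlv n e he]
      simp only [hv, hf n, nv]
      rw [if_pos he]
  have E5 : ∀ n e : ℤ, n < e → v n e = -(ε ^ n * v n (2 * n + 1 - e)) := by
    intro n e he
    rcases lt_or_ge n 0 with hn | hn
    · rw [vn n e hn, vn n _ hn]
      ring
    · obtain ⟨n, rfl⟩ := Int.eq_ofNat_of_zero_le hn
      rw [E4 n (2 * n + 1 - e) (by omega), ← hlv n (2 * n + 1 - e) (by omega)]
      simp only [hv, hf n, nv]
      rw [if_neg (by omega)]
  -- supports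
  have hsup : ∀ N : ℕ, ∀ n e : ℤ, n < N → e < -n → u n e = 0 ∧ v n e = 0 := by
    intro N
    induction N with
    | zero =>
      intro n e hn _
      exact ⟨un n e (by simpa using hn), vn n e (by simpa using hn)⟩
    | succ N ih =>
      intro n e hn he
      push_cast at hn
      rcases lt_or_ge n 0 with hn0 | hn0
      · exact ⟨un n e hn0, vn n e hn0⟩
      · have h1 : u n e = 0 := by
          rw [E1 n e (by omega), un e n (by omega), vn (e - (2 * s + 1)) _ (by omega),
            (ih (n - (2 * s + 1)) (e - (2 * s - 1)) (by omega) (by omega)).2]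
          ring
        refine ⟨h1, ?_⟩
        rw [E4 n e (by omega), h1, un (e - 1) _ (by omega), vn (e - 1) _ (by omega)]
        ring
  have us : ∀ n e : ℤ, e < -n → u n e = 0 := fun n e he =>
    (hsup (n.toNat + 1) n e (by push_cast; omega) he).1
  have vs : ∀ n e : ℤ, e < -n → v n e = 0 := fun n e he =>
    (hsup (n.toNat + 1) n e (by push_cast; omega) he).2
  -- the symmetry of `u`
  have hua' : ∀ n e : ℤ, e ≠ n → u n (2 * n - e) = ε ^ n * u n e := by
    intro n e he
    rcases lt_or_gt_of_ne he with h | h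
    · rw [E2' n (2 * n - e) (by omega)]
      congr 2
      ring
    · rw [E2' n e h, ← mul_assoc, hsq, one_mul]
  have hdiag : ∀ n : ℤ, u n n = ε ^ n * u n n := by
    intro n
    rcases hpm n with h | ⟨h, hn⟩
    · rw [h, one_mul]
    · rcases lt_or_ge n 0 with hn0 | hn0
      · rw [un n n hn0, mul_zero]
      have h3 := E3 n
      rw [if_neg hn] at h3
      -- the sum over the punctured interval vanishes
      have e1 : ∑ e' ∈ (Icc (-n) (3 * n + 1)).erase n, u n e' =
          ∑ e' ∈ (Icc (-n) (3 * n)).erase n, u n e' := by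
        symm
        apply Finset.sum_subset
        · intro e he
          rw [mem_erase, mem_Icc] at he ⊢
          exact ⟨he.1, by omega, by omega⟩
        · intro e he he'
          rw [mem_erase, mem_Icc] at he
          rw [mem_erase, mem_Icc] at he'
          have e2 : e = 3 * n + 1 := by
            by_contra hcon
            exact he' ⟨he.1, by omega, by omega⟩
          rw [E2' n e (by omega), us n (2 * n - e) (by omega), mul_zero]
      have e2 : ∑ e' ∈ (Icc (-n) (3 * n)).erase n, u n e' =
          ∑ e' ∈ (Icc (-n) (3 * n)).erase n, -u n e' := by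
        refine Finset.sum_bij' (fun e _ => 2 * n - e) (fun e _ => 2 * n - e) ?_ ?_ ?_ ?_ ?_
        · intro e he
          rw [mem_erase, mem_Icc] at he ⊢
          exact ⟨by omega, by omega, by omega⟩
        · intro e he
          rw [mem_erase, mem_Icc] at he ⊢
          exact ⟨by omega, by omega, by omega⟩
        · intro e _
          ring
        · intro e _
          ring
        · intro e he
          rw [mem_erase] at he
          rw [hua' n e he.1, h]
          ring
      rw [Finset.sum_neg_distrib] at e2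
      rw [h, h3, e1]
      linarith
  have ua : ∀ n e : ℤ, u n (2 * n - e) = ε ^ n * u n e := by
    intro n e
    by_cases he : e = n
    · subst he
      have e1 : 2 * e - e = e := by ring
      rw [e1]
      exact hdiag e
    · exact hua' n e he
  have va : ∀ n e : ℤ, v n (2 * n + 1 - e) = -(ε ^ n * v n e) := by
    intro n e
    rcases le_or_gt e n with h | h
    · rw [E5 n (2 * n + 1 - e) (by omega)]
      congr 3
      ring
    · rw [E5 n e h]
      have := hsq n
      linear_combination (-v n (2 * n + 1 - e)) * this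
  refine ⟨u, v, ⟨⟨un, vn, us, vs, ua, va, ?_, ?_⟩, ?_⟩⟩
  · intro n e
    rcases lt_trichotomy e n with h | h | h
    · rw [E1 n e h]
      ring
    · rw [h]
    · rw [E1 e n h]
      ring
  · intro n e
    rcases lt_trichotomy e n with h | h | h
    · rw [E4 n (e + 1) (by omega), show e + 1 - 1 = e by ring]
      ring
    · rw [h]
    · rw [E4 e (n + 1) (by omega), show n + 1 - 1 = n by ring]
      ring
  · intro n
    unfold sm
    rcases lt_or_ge n 0 with hn | hn
    · rw [if_neg (by omega), Finset.sum_eq_zero fun e _ => un n e hn]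
    · rw [← Finset.add_sum_erase _ _ (mem_Icc.2 ⟨by omega, by omega⟩ :
        n ∈ Icc (-n) (3 * n + 1)), E3 n]
      ring

end Pool.Agent.H181.EX

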