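import Pool.Agent.H525.EX.Stm5
import Pool.Agent.H236.QF.RR
import Pool.Agent.H277.QF.EX

/-!
# Weighted Riemann-Roch, first kind (task TW1 of project EX of helper525, by helper181)
-/

set_option autoImplicit false

namespace Pool.Agent.H181.EX

open Polynomial
open Pool.Agent.H525.QF Pool.Agent.H525.EX
open scoped Classical

section

variable {K : Type} [Field K] [Fintype K]

theorem mem_lt' {a : ℕ} {p : K[X]} : p ∈ lt K a ↔ ∀ j, a ≤ j → p.coeff j = 0 := by
  rw [mem_lt, degree_lt_iff_coeff_zero]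

/-- the number of the pairs with given top coefficient -/
theorem card_top (b τ : K[X]) (m : ℕ) (c : K) :
    ((((lt K (m + 1)) ×ˢ (mon K m)).filter (fun v => b ∣ v.1 + τ * v.2)).filter
      (fun v => v.1.coeff m = c)).card =
      (((lt K m) ×ˢ (mon K m)).filter (fun v => b ∣ v.1 + (τ + C c) * v.2)).card := by
  refine Finset.card_nbij' (fun v => (v.1 - C c * v.2, v.2)) (fun v => (v.1 + C c * v.2, v.2))
    ?_ ?_ ?_ ?_
  · intro v hv
    rw [Finset.mem_coe, Finset.mem_filter, Finset.mem_filter, Finset.mem_product] at hv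
    obtain ⟨⟨⟨h1, h2⟩, h3⟩, h4⟩ := hv
    obtain ⟨h5, h6⟩ := mem_mon.1 h2
    rw [Finset.mem_coe, Finset.mem_filter, Finset.mem_product]
    refine ⟨⟨mem_lt'.2 fun j hj => ?_, h2⟩, ?_⟩
    · change (v.1 - C c * v.2).coeff j = 0
      rw [coeff_sub, coeff_C_mul]
      rcases Nat.eq_or_lt_of_le hj with h7 | h7
      · rw [← h7, h4]
        have h8 : v.2.coeff m = 1 := by
          rw [← h6]
          exact h5
        rw [h8, mul_one, sub_self]
      · rw [mem_lt'.1 h1 j h7, coeff_eq_zero_of_natDegree_lt (by omega), mul_zero, sub_zero]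
    · change b ∣ v.1 - C c * v.2 + (τ + C c) * v.2
      have h7 : v.1 - C c * v.2 + (τ + C c) * v.2 = v.1 + τ * v.2 := by ring
      rw [h7]
      exact h3
  · intro v hv
    rw [Finset.mem_coe, Finset.mem_filter, Finset.mem_product] at hv
    obtain ⟨⟨h1, h2⟩, h3⟩ := hv
    obtain ⟨h5, h6⟩ := mem_mon.1 h2
    rw [Finset.mem_coe, Finset.mem_filter, Finset.mem_filter, Finset.mem_product]
    refine ⟨⟨⟨mem_lt'.2 fun j hj => ?_, h2⟩, ?_⟩, ?_⟩
    · change (v.1 + C c * v.2).coeff j = 0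
      rw [coeff_add, coeff_C_mul, mem_lt'.1 h1 j (by omega),
        coeff_eq_zero_of_natDegree_lt (by omega), mul_zero, add_zero]
    · change b ∣ v.1 + C c * v.2 + τ * v.2
      have h7 : v.1 + C c * v.2 + τ * v.2 = v.1 + (τ + C c) * v.2 := by ring
      rw [h7]
      exact h3
    · change (v.1 + C c * v.2).coeff m = c
      have h8 : v.2.coeff m = 1 := by
        rw [← h6]
        exact h5
      rw [coeff_add, coeff_C_mul, mem_lt'.1 h1 m le_rfl, h8, mul_one, zero_add]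
  · intro v _
    exact Prod.ext (sub_add_cancel _ _) rfl
  · intro v _
    exact Prod.ext (add_sub_cancel_right _ _) rfl

/-- the box is stable under `x ↦ x + c y` -/
theorem L_shift (b τ : K[X]) (m : ℕ) (c : K) : L m m b (τ + C c) = L m m b τ := by
  unfold L
  refine Finset.card_nbij' (fun v => (v.1 + C c * v.2, v.2)) (fun v => (v.1 - C c * v.2, v.2))
    ?_ ?_ ?_ ?_
  · intro v hv
    rw [Finset.mem_coe, Finset.mem_filter, Finset.mem_product] at hv
    obtain ⟨⟨h1, h2⟩, h3⟩ := hv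
    rw [Finset.mem_coe, Finset.mem_filter, Finset.mem_product]
    refine ⟨⟨mem_lt'.2 fun j hj => ?_, h2⟩, ?_⟩
    · change (v.1 + C c * v.2).coeff j = 0
      rw [coeff_add, coeff_C_mul, mem_lt'.1 h1 j hj, mem_lt'.1 h2 j hj, mul_zero, add_zero]
    · change b ∣ v.1 + C c * v.2 + τ * v.2
      have h7 : v.1 + C c * v.2 + τ * v.2 = v.1 + (τ + C c) * v.2 := by ring
      rw [h7]
      exact h3
  · intro v hv
    rw [Finset.mem_coe, Finset.mem_filter, Finset.mem_product] at hv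
    obtain ⟨⟨h1, h2⟩, h3⟩ := hv
    rw [Finset.mem_coe, Finset.mem_filter, Finset.mem_product]
    refine ⟨⟨mem_lt'.2 fun j hj => ?_, h2⟩, ?_⟩
    · change (v.1 - C c * v.2).coeff j = 0
      rw [coeff_sub, coeff_C_mul, mem_lt'.1 h1 j hj, mem_lt'.1 h2 j hj, mul_zero, sub_zero]
    · change b ∣ v.1 - C c * v.2 + (τ + C c) * v.2
      have h7 : v.1 - C c * v.2 + (τ + C c) * v.2 = v.1 + τ * v.2 := by ring
      rw [h7]
      exact h3
  · intro v _
    exact Prod.ext (add_sub_cancel_right _ _) rfl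
  · intro v _
    exact Prod.ext (sub_add_cancel _ _) rfl

/-- scaling -/
theorem L_split (b τ : K[X]) (m : ℕ) : L m (m + 1) b τ = L m m b τ + (Fintype.card K - 1) *
    (((lt K m) ×ˢ (mon K m)).filter (fun v => b ∣ v.1 + τ * v.2)).card := by
  refine Pool.Agent.H277.QF.split (fun v : K[X] × K[X] => b ∣ v.1 + τ * v.2) ?_ m m
  intro c hc v
  have h : C c * v.1 + τ * (C c * v.2) = C c * (v.1 + τ * v.2) := by ring
  change b ∣ C c * v.1 + τ * (C c * v.2) ↔ b ∣ v.1 + τ * v.2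
  rw [h]
  have hu : IsUnit (C c) := isUnit_C.2 hc.isUnit
  exact hu.dvd_mul_left

/-- the weighted number in terms of the unweighted numbers -/
theorem T1_nat (ω : K → ℝ) (hω : ∑ c : K, ω c = 0) (b τ : K[X]) (m : ℕ) :
    ((Fintype.card K : ℝ) - 1) * T1 ω b τ (m : ℤ) =
      ∑ c : K, ω c * (L m (m + 1) b (τ + C c) : ℝ) := by
  have h0 : ¬ (m : ℤ) < 0 := by omega
  have h1 : T1 ω b τ (m : ℤ) = ∑ c : K, ω c *
      ((((lt K m) ×ˢ (mon K m)).filter (fun v => b ∣ v.1 + (τ + C c) * v.2)).card : ℝ) := by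
    unfold T1
    rw [if_neg h0, Int.toNat_natCast, ← Finset.sum_fiberwise
      (((lt K (m + 1)) ×ˢ (mon K m)).filter (fun v => b ∣ v.1 + τ * v.2))
      (fun v => v.1.coeff m) (fun v => ω (v.1.coeff m))]
    refine Finset.sum_congr rfl fun c _ => ?_
    rw [← card_top b τ m c, Finset.sum_congr rfl (g := fun _ => ω c) fun v hv => by
      rw [(Finset.mem_filter.1 hv).2], Finset.sum_const, nsmul_eq_mul, mul_comm]
  have hq : ((Fintype.card K - 1 : ℕ) : ℝ) = (Fintype.card K : ℝ) - 1 := by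
    rw [Nat.cast_sub Fintype.card_pos, Nat.cast_one]
  have h2 : ∀ c : K, ω c * (L m (m + 1) b (τ + C c) : ℝ) = ω c * (L m m b τ : ℝ) +
      ((Fintype.card K : ℝ) - 1) * (ω c *
      ((((lt K m) ×ˢ (mon K m)).filter (fun v => b ∣ v.1 + (τ + C c) * v.2)).card : ℝ)) := by
    intro c
    rw [L_split b (τ + C c) m, L_shift b τ m c]
    push_cast [hq]
    ring
  rw [Finset.sum_congr rfl fun c _ => h2 c, Finset.sum_add_distrib, ← Finset.sum_mul, hω,
    zero_mul, zero_add, ← Finset.mul_sum, ← h1]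

theorem card_sub_ne : (Fintype.card K : ℝ) - 1 ≠ 0 := by
  have h : 1 < Fintype.card K := Fintype.one_lt_card
  have h' : (1 : ℝ) < Fintype.card K := by exact_mod_cast h
  linarith

theorem card_ne : (Fintype.card K : ℝ) ≠ 0 := by
  have h : Fintype.card K ≠ 0 := Fintype.card_ne_zero
  exact_mod_cast h

/-- large degrees -/
theorem T1_big (ω : K → ℝ) (hω : ∑ c : K, ω c = 0) (b τ : K[X]) {l : ℕ} (hb : b.Monic)
    (hl : b.natDegree = l) {m : ℤ} (hm : (l : ℤ) ≤ m) : T1 ω b τ m = 0 := by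
  obtain ⟨n, rfl⟩ := Int.eq_ofNat_of_zero_le (by omega : 0 ≤ m)
  have h1 := T1_nat ω hω b τ n
  have hln : l ≤ n := by exact_mod_cast hm
  have hql : (Fintype.card K : ℝ) ^ l ≠ 0 := pow_ne_zero _ card_ne
  have h2 : ∀ c : K, (L n (n + 1) b (τ + C c) : ℝ) =
      (Fintype.card K : ℝ) ^ n * ((lt K (n + 1)).card : ℝ) / (Fintype.card K : ℝ) ^ l := by
    intro c
    have h3 := (Pool.Agent.H277.QF.t_ex K b (τ + C c) l n (lt K (n + 1)) hb hl hln).1
    rw [eq_div_iff hql]
    unfold L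
    exact_mod_cast h3
  rw [Finset.sum_congr rfl fun c _ => by rw [h2 c], ← Finset.sum_mul, hω, zero_mul] at h1
  exact (mul_eq_zero.1 h1).resolve_left card_sub_ne

end

theorem t_tw1 : Pool.Agent.H525.EX.S_tw1 := by
  intro K _ _ ω hω b τ l hb hl m
  by_cases h1 : m < 0
  · have h2 : T1 ω b τ m = 0 := by
      unfold T1
      rw [if_pos h1]
    rw [h2, T1_big ω hω b τ hb hl (m := l - m - 1) (by omega), mul_zero]
  by_cases h2 : (l : ℤ) ≤ m
  · have h3 : T1 ω b τ (l - m - 1) = 0 := by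
      unfold T1
      rw [if_pos (by omega)]
    rw [h3, T1_big ω hω b τ hb hl h2, mul_zero]
  obtain ⟨n, rfl⟩ := Int.eq_ofNat_of_zero_le (not_lt.1 h1)
  obtain ⟨k, hk⟩ : ∃ k : ℕ, l = n + k + 1 := ⟨l - n - 1, by omega⟩
  have e1 : (l : ℤ) - (n : ℤ) - 1 = (k : ℕ) := by
    rw [hk]
    push_cast
    ring
  have h3 := T1_nat ω hω b τ n
  have h4 := T1_nat ω hω b τ k
  rw [e1]
  apply mul_left_cancel₀ (card_sub_ne (K := K))
  rw [h3, mul_left_comm, h4, Finset.mul_sum]
  refine Finset.sum_congr rfl fun c _ => ?_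
  have h5 := Pool.Agent.H236.QF.t_rr K b (τ + C c) l n (n + 1) hb hl (by omega) (by omega)
  have e2 : l - (n + 1) = k := by omega
  have e3 : l - n = k + 1 := by omega
  rw [e2, e3] at h5
  have h6 : (L n (n + 1) b (τ + C c) : ℝ) * (Fintype.card K : ℝ) ^ (l : ℤ) =
      (Fintype.card K : ℝ) ^ (2 * (n : ℤ) + 1) * (L k (k + 1) b (τ + C c) : ℝ) := by
    have e4 : 2 * (n : ℤ) + 1 = ((n + (n + 1) : ℕ) : ℤ) := by
      push_cast
      ring
    rw [e4, zpow_natCast, zpow_natCast]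
    exact_mod_cast h5
  have hq : (Fintype.card K : ℝ) ≠ 0 := card_ne
  have h7 : (L n (n + 1) b (τ + C c) : ℝ) =
      (Fintype.card K : ℝ) ^ (2 * (n : ℤ) + 1 - l) * (L k (k + 1) b (τ + C c) : ℝ) := by
    rw [zpow_sub₀ hq, div_mul_eq_mul_div, eq_div_iff (zpow_ne_zero _ hq)]
    exact h6
  rw [h7]
  ring

end Pool.Agent.H181.EX
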